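import Pool.Agent.W603.GY.Maps

/-!
MP_bc213e_ag, Q1: nonvanishing for log smooth pairs with a generically finite morphism from the
complement of the boundary to a quasi-projective variety given by sums of few high powers of linear
forms.
-/

set_option autoImplicit false

namespace Pool.Agent.Results.MP_bc213e_ag.MapsToWaringVarieties

open FF Pool.Agent.W602.GT Pool.Agent.W603.GW Pool.Agent.W603.GX Pool.Agent.W603.GY

/-- Let `X` be the quasi-projective variety `F_i = 0`, `Q_j ≠ 0`, the `F_i` and the (finitely many)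
`Q_j` being sums of few high powers of linear forms, and let `(Y, D)` be a log smooth pair of
dimension `w` with a generically finite morphism from `Y` minus `D` to `X`. If the image of the
generic point does not lie on an affine line in `X`, then the Kodaira dimension of `K_Y + D` is at
least `0`, and at least `w + 1` minus the number of the `Q_j`. -/
theorem result {k : Type} [Field k] [IsAlgClosed k] [CharZero k] {n : ℕ} {ι κ : Type} [Finite κ]
    {F : ι → MvPolynomial (Fin (n + 1)) k} {Q : κ → MvPolynomial (Fin (n + 1)) k} {S N : ℕ}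
    (hF : ∀ i, IsPowSum S N (F i)) (hQ : ∀ j, IsPowSum (S - 1) N (Q j)) (hN1 : 1 ≤ N)
    (hN : n * ((S + 1) * ((S - 1) * (S - 2) / 2)) ≤ N) {K : Type} [Field K] [Algebra k K] {w : ℕ}
    {y : Fin (n + 1) → K} (hy : MapQ F Q K w y) {Bd : Place k K → Prop}
    (hBd : ∀ P, OffAny Q y P → Bd P) :
    AffLineX F Q y ∨ ∃ h, w ≤ h + (Nat.card κ - 1) ∧ KodGe k K w Bd h := by
  rcases maps_kod hF hQ hN1 (by rw [tn_eq]; exact hN) hy with h | ⟨h, hh, N', hN', ω, hω, hD⟩
  · exact Or.inl h
  · exact Or.inr ⟨h, hh, N', hN', ω, fun j => ⟨(hω j).1, (hω j).2.1, fun P hP hb =>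
      (hω j).2.2 P hP fun ho => hb (hBd P ho)⟩, hD⟩

end Pool.Agent.Results.MP_bc213e_ag.MapsToWaringVarieties
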